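import Mathlib

set_option autoImplicit false

open Polynomial

namespace Pool.Agent.Results.MP_87e037_al.LoweringMap

universe u

section defs

variable {K : Type u} [Field K]

/-- `τ_i = (λ - θ_0) ⋯ (λ - θ_{i-1})`. -/
noncomputable def tau (θ : ℕ → K) (i : ℕ) : K[X] := ∏ h ∈ Finset.range i, (X - C (θ h))

/-- `ρ_i = (λ - θ_d) ⋯ (λ - θ_{d-i+1})`. -/
noncomputable def rho (θ : ℕ → K) (d i : ℕ) : K[X] :=
  ∏ h ∈ Finset.range i, (X - C (θ (d - h)))

/-- `V` is the space of polynomials of degree at most `d`. A lowering map on `V` is a linear map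
`Ψ` with `Ψ τ_0 = 0`, `Ψ ρ_0 = 0` and, for `1 ≤ i ≤ d`, `Ψ τ_i ∈ span τ_{i-1}` and
`Ψ ρ_i ∈ span ρ_{i-1}`. -/
structure IsLoweringMap (d : ℕ) (θ : ℕ → K) (Ψ : degreeLE K (d : ℕ) →ₗ[K] degreeLE K (d : ℕ)) :
    Prop where
  tau_zero : ∀ p : degreeLE K (d : ℕ), (p : K[X]) = tau θ 0 → Ψ p = 0
  rho_zero : ∀ p : degreeLE K (d : ℕ), (p : K[X]) = rho θ d 0 → Ψ p = 0
  tau_mem : ∀ i, 1 ≤ i → i ≤ d → ∀ p : degreeLE K (d : ℕ), (p : K[X]) = tau θ i →
    (Ψ p : K[X]) ∈ Submodule.span K {tau θ (i - 1)}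
  rho_mem : ∀ i, 1 ≤ i → i ≤ d → ∀ p : degreeLE K (d : ℕ), (p : K[X]) = rho θ d i →
    (Ψ p : K[X]) ∈ Submodule.span K {rho θ d (i - 1)}

/-- `ϑ_i = ∑_{h < i} (θ_h - θ_{d-h})`. -/
def vth {R : Type u} [CommRing R] (θ : ℕ → R) (d k : ℕ) : R :=
  ∑ h ∈ Finset.range k, (θ h - θ (d - h))

end defs

section combinatorics

variable {R : Type u} [CommRing R]

/-- Newton coefficients of `ρ_i` in the basis `τ_j`. -/
def nc (θ : ℕ → R) (d : ℕ) : ℕ → ℕ → R
  | 0, 0 => 1
  | 0, (_ + 1) => 0
  | (i + 1), 0 => (θ 0 - θ (d - i)) * nc θ d i 0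
  | (i + 1), (j + 1) => (θ (j + 1) - θ (d - i)) * nc θ d i (j + 1) + nc θ d i j

lemma nc_of_lt (θ : ℕ → R) (d : ℕ) : ∀ i j, i < j → nc θ d i j = 0 := by
  intro i
  induction i with
  | zero =>
    intro j hj
    obtain ⟨j, rfl⟩ : ∃ k, j = k + 1 := ⟨j - 1, by omega⟩
    rfl
  | succ i ih =>
    intro j hj
    obtain ⟨j, rfl⟩ : ∃ k, j = k + 1 := ⟨j - 1, by omega⟩
    rw [nc, ih _ (by omega), ih _ (by omega)]
    simp

lemma nc_self (θ : ℕ → R) (d : ℕ) : ∀ i, nc θ d i i = 1 := by
  intro i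
  induction i with
  | zero => rfl
  | succ i ih => rw [nc, ih, nc_of_lt _ _ _ _ (by omega)]; simp

/-- products of the `ϑ`s -/
def pv (θ : ℕ → R) (d k : ℕ) : R := ∏ s ∈ Finset.range k, vth θ d (s + 1)

lemma pv_succ (θ : ℕ → R) (d k : ℕ) : pv θ d (k + 1) = pv θ d k * vth θ d (k + 1) := by
  rw [pv, Finset.prod_range_succ]; rfl

lemma pv_zero (θ : ℕ → R) (d : ℕ) : pv θ d 0 = 1 := rfl

/-- the key proportionality -/
def Prp (θ : ℕ → R) (d : ℕ) : Prop :=
  ∀ m n, m + n + 1 ≤ d → (θ m - θ (d - (m + n))) * vth θ d (n + 1) =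
    (vth θ d (m + n + 1) - vth θ d m) * (θ 0 - θ (d - n))

lemma nc_formula (θ : ℕ → R) (d : ℕ) (hP : Prp θ d) :
    ∀ i j n, j + n = i → i ≤ d →
      nc θ d i j * pv θ d j * pv θ d n = pv θ d i * nc θ d n 0 := by
  intro i
  induction i with
  | zero =>
    intro j n h _
    obtain rfl : j = 0 := by omega
    obtain rfl : n = 0 := by omega
    simp [pv_zero]
  | succ i ih =>
    intro j n hjn hi
    rcases Nat.eq_zero_or_pos j with rfl | hj
    · obtain rfl : n = i + 1 := by omega
      rw [pv_zero]; ring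
    rcases Nat.eq_zero_or_pos n with rfl | hn
    · obtain rfl : j = i + 1 := by omega
      rw [pv_zero, nc_self]
      simp [nc]
    obtain ⟨j, rfl⟩ : ∃ k, j = k + 1 := ⟨j - 1, by omega⟩
    obtain ⟨n, rfl⟩ : ∃ k, n = k + 1 := ⟨n - 1, by omega⟩
    obtain rfl : i = j + 1 + n := by omega
    have h1 := ih (j + 1) n rfl (by omega)
    have h2 := ih j (n + 1) (by omega) (by omega)
    have h3 := hP (j + 1) n (by omega)
    have h0 : nc θ d (j + 1 + n + 1) (j + 1) =
      (θ (j + 1) - θ (d - (j + 1 + n))) * nc θ d (j + 1 + n) (j + 1) + nc θ d (j + 1 + n) j := rfl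
    have h4 : nc θ d (n + 1) 0 = (θ 0 - θ (d - n)) * nc θ d n 0 := rfl
    rw [h0, pv_succ θ d n, pv_succ θ d j, h4, pv_succ θ d (j + 1 + n)]
    rw [pv_succ θ d n, h4] at h2
    rw [pv_succ θ d j] at h1
    linear_combination (θ (j + 1) - θ (d - (j + 1 + n))) * vth θ d (n + 1) * h1 +
      vth θ d (j + 1) * h2 + pv θ d (j + 1 + n) * nc θ d n 0 * h3

lemma nc_identity [IsDomain R] (θ : ℕ → R) (d : ℕ) (hP : Prp θ d)
    (hv : ∀ k, 1 ≤ k → k ≤ d → vth θ d k ≠ 0) (i j : ℕ) (hj : j ≤ i) (hi : i + 1 ≤ d) :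
    vth θ d (j + 1) * nc θ d (i + 1) (j + 1) = vth θ d (i + 1) * nc θ d i j := by
  have hpv : ∀ k, k ≤ d → pv θ d k ≠ 0 := by
    intro k hk
    rw [pv, Finset.prod_ne_zero_iff]
    intro s hs
    rw [Finset.mem_range] at hs
    exact hv _ (by omega) (by omega)
  obtain ⟨n, rfl⟩ : ∃ n, i = j + n := ⟨i - j, by omega⟩
  have h1 := nc_formula θ d hP (j + n) j n rfl (by omega)
  have h2 := nc_formula θ d hP (j + n + 1) (j + 1) n (by omega) (by omega)
  rw [pv_succ θ d j, pv_succ θ d (j + n)] at h2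
  have h3 : pv θ d j * pv θ d n ≠ 0 := mul_ne_zero (hpv _ (by omega)) (hpv _ (by omega))
  apply mul_right_cancel₀ h3
  linear_combination h2 - vth θ d (j + n + 1) * h1

end combinatorics

section proportional

variable {R : Type u} [CommRing R] [IsDomain R]

/-- Two antisymmetric solutions of the recurrence are proportional. -/
lemma antisymm_prop (h2 : (2 : R) ≠ 0) (c : R) (N : ℕ) (f g : ℕ → R)
    (hf : ∀ m, m + 3 ≤ N → f m - f (m + 3) = c * (f (m + 1) - f (m + 2)))
    (hg : ∀ m, m + 3 ≤ N → g m - g (m + 3) = c * (g (m + 1) - g (m + 2)))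
    (haf : ∀ m, m ≤ N → f (N - m) = - f m) (hag : ∀ m, m ≤ N → g (N - m) = - g m) :
    ∀ m, m ≤ N → f m * g 0 = g m * f 0 := by
  have hself : ∀ x : R, x = -x → x = 0 := by
    intro x hx
    have : (2 : R) * x = 0 := by linear_combination hx
    exact (mul_eq_zero.1 this).resolve_left h2
  -- second order recurrence
  have second : ∀ (f : ℕ → R), (∀ m, m + 3 ≤ N → f m - f (m + 3) = c * (f (m + 1) - f (m + 2))) →
      (∀ m, m ≤ N → f (N - m) = - f m) →
      ∀ m, m + 2 ≤ N → f m - (c - 1) * f (m + 1) + f (m + 2) = 0 := by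
    intro f hf haf
    have hconst : ∀ m, m + 2 ≤ N → f m - (c - 1) * f (m + 1) + f (m + 2) =
        f 0 - (c - 1) * f 1 + f 2 := by
      intro m
      induction m with
      | zero => intro _; rfl
      | succ m ih =>
        intro hm
        rw [← ih (by omega)]
        have := hf m (by omega)
        have e1 : m + 1 + 1 = m + 2 := rfl
        have e2 : m + 1 + 2 = m + 3 := rfl
        rw [e1, e2]
        linear_combination -this
    intro m hm
    have hN : 2 ≤ N := by omega
    have h0 : f 0 - (c - 1) * f 1 + f 2 = 0 := by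
      apply hself
      have h1 := hconst (N - 2) (by omega)
      have e0 : N - 2 + 1 = N - 1 := by omega
      have e1 : N - 2 + 2 = N - 0 := by omega
      rw [e0, e1, haf 2 (by omega), haf 1 (by omega), haf 0 (by omega)] at h1
      linear_combination -h1
    rw [hconst m hm, h0]
  have sf := second f hf haf
  have sg := second g hg hag
  rcases Nat.lt_or_ge N 1 with hN | hN
  · intro m hm
    obtain rfl : m = 0 := by omega
    ring
  -- Casoratian
  have hW : ∀ m, m + 1 ≤ N → f (m + 1) * g m - f m * g (m + 1) = f 1 * g 0 - f 0 * g 1 := by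
    intro m
    induction m with
    | zero => intro _; rfl
    | succ m ih =>
      intro hm
      have h1 := sf m (by omega)
      have h2' := sg m (by omega)
      rw [← ih (by omega)]
      have e1 : m + 1 + 1 = m + 2 := rfl
      rw [e1]
      linear_combination g (m + 1) * h1 - f (m + 1) * h2'
  have hW0 : f 1 * g 0 - f 0 * g 1 = 0 := by
    apply hself
    have h1 := hW (N - 1) (by omega)
    have e1 : N - 1 + 1 = N - 0 := by omega
    rw [e1, haf 0 (by omega), haf 1 (by omega), hag 0 (by omega), hag 1 (by omega)] at h1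
    linear_combination -h1
  have key : ∀ m, (m ≤ N → f m * g 0 - g m * f 0 = 0) ∧
      (m + 1 ≤ N → f (m + 1) * g 0 - g (m + 1) * f 0 = 0) := by
    intro m
    induction m with
    | zero =>
      refine ⟨fun _ => by ring, fun _ => ?_⟩
      rw [zero_add]
      linear_combination hW0
    | succ m ih =>
      refine ⟨ih.2, fun hm => ?_⟩
      have h1 := sf m (by omega)
      have h2' := sg m (by omega)
      have h3 := ih.1 (by omega)
      have h4 := ih.2 (by omega)
      have e1 : m + 1 + 1 = m + 2 := rfl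
      rw [e1]
      linear_combination g 0 * h1 - f 0 * h2' - h3 + (c - 1) * h4
  intro m hm
  have := (key m).1 hm
  linear_combination this

/-- The key proportionality holds for recurrent sequences. -/
lemma prp_of_rec (h2 : (2 : R) ≠ 0) (c : R) (θ : ℕ → R) (d : ℕ)
    (hθ : ∀ m, m + 3 ≤ d → θ m - θ (m + 3) = c * (θ (m + 1) - θ (m + 2))) : Prp θ d := by
  intro m n hmn
  let N := d - n
  let f : ℕ → R := fun a => vth θ d (a + n + 1) - vth θ d a
  let g : ℕ → R := fun a => θ a - θ (N - a)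
  -- the sequence `θ_h - θ_{d-h}`
  let a : ℕ → R := fun h => θ h - θ (d - h)
  have hθ' : ∀ m, m + 3 ≤ d → θ (d - m) - θ (d - (m + 3)) =
      c * (θ (d - (m + 1)) - θ (d - (m + 2))) := by
    intro m hm
    have := hθ (d - (m + 3)) (by omega)
    have e1 : d - (m + 3) + 3 = d - m := by omega
    have e2 : d - (m + 3) + 2 = d - (m + 1) := by omega
    have e3 : d - (m + 3) + 1 = d - (m + 2) := by omega
    rw [e1, e2, e3] at this
    linear_combination -this
  have ha : ∀ m, m + 3 ≤ d → a m - a (m + 3) = c * (a (m + 1) - a (m + 2)) := by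
    intro m hm
    have h1 := hθ m hm
    have h2 := hθ' m hm
    simp only [a]
    linear_combination h1 - h2
  have hfsum : ∀ b, f b = ∑ s ∈ Finset.range (n + 1), a (b + s) := by
    intro b
    simp only [f, vth]
    rw [add_assoc, Finset.sum_range_add]
    simp [a]
  have key := antisymm_prop h2 c N f g ?_ ?_ ?_ ?_ m (by omega)
  · simp only [f, g] at key
    have e1 : vth θ d 0 = 0 := by simp [vth]
    rw [e1] at key
    have e2 : N - m = d - (m + n) := by omega
    have e3 : N - 0 = d - n := by omega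
    rw [e2, e3] at key
    simp only [zero_add, sub_zero] at key
    linear_combination -key
  · intro b hb
    rw [hfsum, hfsum, hfsum, hfsum, ← Finset.sum_sub_distrib, ← Finset.sum_sub_distrib,
      Finset.mul_sum]
    refine Finset.sum_congr rfl fun s hs => ?_
    rw [Finset.mem_range] at hs
    have := ha (b + s) (by omega)
    have e1 : b + 3 + s = b + s + 3 := by omega
    have e2 : b + 2 + s = b + s + 2 := by omega
    have e3 : b + 1 + s = b + s + 1 := by omega
    rw [e1, e2, e3]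
    exact this
  · intro b hb
    simp only [g]
    have h1 := hθ b (by omega)
    have h2 := hθ (N - (b + 3)) (by omega)
    have e1 : N - (b + 3) + 3 = N - b := by omega
    have e2 : N - (b + 3) + 2 = N - (b + 1) := by omega
    have e3 : N - (b + 3) + 1 = N - (b + 2) := by omega
    rw [e1, e2, e3] at h2
    linear_combination h1 + h2
  · intro b hb
    rw [hfsum, hfsum, ← Finset.sum_neg_distrib, ← Finset.sum_range_reflect]
    refine Finset.sum_congr rfl fun s hs => ?_
    rw [Finset.mem_range] at hs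
    simp only [a]
    have e1 : N - b + (n + 1 - 1 - s) = d - (b + s) := by omega
    have e2 : d - (N - b + (n + 1 - 1 - s)) = b + s := by omega
    rw [e2, e1]
    ring
  · intro b hb
    simp only [g]
    have e1 : N - (N - b) = b := by omega
    rw [e1]
    ring

end proportional

section generic

/-- The generic recurrent sequence, over `ℤ[x_0, x_1, x_2, x_3]`, where `x_3` is the ratio. -/
noncomputable def gen : ℕ → MvPolynomial (Fin 4) ℤ
  | 0 => MvPolynomial.X 0
  | 1 => MvPolynomial.X 1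
  | 2 => MvPolynomial.X 2
  | (n + 3) => gen n - MvPolynomial.X 3 * (gen (n + 1) - gen (n + 2))

lemma gen_rec (m : ℕ) :
    gen m - gen (m + 3) = MvPolynomial.X 3 * (gen (m + 1) - gen (m + 2)) := by
  have : gen (m + 3) = gen m - MvPolynomial.X 3 * (gen (m + 1) - gen (m + 2)) := by
    rw [gen]
  rw [this]; ring

/-- the specialisation to the arithmetic progression `0, 1, 2, …` -/
noncomputable def spec : MvPolynomial (Fin 4) ℤ →+* ℤ :=
  MvPolynomial.eval₂Hom (RingHom.id ℤ) ![0, 1, 2, 3]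

lemma spec_gen : ∀ m : ℕ, spec (gen m) = m ∧ spec (gen (m + 1)) = m + 1 ∧
    spec (gen (m + 2)) = m + 2 := by
  intro m
  induction m with
  | zero => refine ⟨?_, ?_, ?_⟩ <;> simp [spec, gen]
  | succ m ih =>
    obtain ⟨h0, h1, h2⟩ := ih
    refine ⟨?_, ?_, ?_⟩
    · rw [h1]; push_cast; ring
    · rw [h2]; push_cast; ring
    · have e : gen (m + 1 + 2) = gen m - MvPolynomial.X 3 * (gen (m + 1) - gen (m + 2)) := by
        have e1 : m + 1 + 2 = m + 3 := rfl
        rw [e1, gen]
      rw [e, map_sub, map_mul, map_sub, h0, h1, h2]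
      simp [spec]
      ring

lemma map_vth {R : Type} {S : Type u} [CommRing R] [CommRing S] (φ : R →+* S) (θ : ℕ → R) (d k : ℕ) :
    φ (vth θ d k) = vth (fun n => φ (θ n)) d k := by
  simp [vth]

lemma vth_nat (d : ℕ) : ∀ k, k ≤ d → vth (fun n : ℕ => (n : ℤ)) d k = k * (k - 1 - d) := by
  intro k
  induction k with
  | zero => intro _; simp [vth]
  | succ k ih =>
    intro hk
    have := ih (by omega)
    rw [vth] at this ⊢
    rw [Finset.sum_range_succ, this]
    push_cast [Nat.cast_sub (show k ≤ d by omega)]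
    ring

lemma vth_gen_ne (d k : ℕ) (h1 : 1 ≤ k) (hk : k ≤ d) : vth gen d k ≠ 0 := by
  intro h0
  have h2 := congrArg spec h0
  rw [map_vth, map_zero] at h2
  have h3 : (fun n => spec (gen n)) = fun n : ℕ => (n : ℤ) := by
    ext n; exact (spec_gen n).1
  rw [h3, vth_nat d k hk] at h2
  rcases mul_eq_zero.1 h2 with h | h
  · omega
  · omega

lemma map_nc {R : Type} {S : Type u} [CommRing R] [CommRing S] (φ : R →+* S) (θ : ℕ → R)
    (d : ℕ) : ∀ i j, φ (nc θ d i j) = nc (fun n => φ (θ n)) d i j := by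
  intro i
  induction i with
  | zero =>
    intro j
    cases j with
    | zero => simp [nc]
    | succ j => simp [nc]
  | succ i ih =>
    intro j
    cases j with
    | zero => simp [nc, ih]
    | succ j => simp [nc, ih]

variable {K : Type u} [Field K]

/-- the specialisation homomorphism -/
noncomputable def specK (a b c r : K) : MvPolynomial (Fin 4) ℤ →+* K :=
  MvPolynomial.eval₂Hom (Int.castRingHom K) ![a, b, c, r]

lemma specK_gen (θ : ℕ → K) (d : ℕ) (r : K)
    (hθ : ∀ m, m + 3 ≤ d → θ m - θ (m + 3) = r * (θ (m + 1) - θ (m + 2))) :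
    ∀ n, n ≤ d → specK (θ 0) (θ 1) (θ 2) r (gen n) = θ n := by
  intro n
  induction n using Nat.strong_induction_on with
  | _ n ih =>
    intro hn
    rcases n with _ | _ | _ | n
    · simp [specK, gen]
    · simp [specK, gen]
    · simp [specK, gen]
    · have e : gen (n + 3) = gen n - MvPolynomial.X 3 * (gen (n + 1) - gen (n + 2)) := by
        rw [gen]
      have h1 := ih n (by omega) (by omega)
      have h2 := ih (n + 1) (by omega) (by omega)
      have h3 := ih (n + 2) (by omega) (by omega)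
      change specK (θ 0) (θ 1) (θ 2) r (gen (n + 3)) = θ (n + 3)
      rw [e, map_sub, map_mul, map_sub, h1, h2, h3]
      have h4 : specK (θ 0) (θ 1) (θ 2) r (MvPolynomial.X 3) = r := by simp [specK]
      rw [h4]
      have := hθ n hn
      linear_combination this

/-- The identity for the specialised generic sequence. -/
lemma identity_K (a b c r : K) (d i j : ℕ) (hj : j ≤ i) (hi : i + 1 ≤ d) :
    vth (fun n => specK a b c r (gen n)) d (j + 1) *
      nc (fun n => specK a b c r (gen n)) d (i + 1) (j + 1) =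
    vth (fun n => specK a b c r (gen n)) d (i + 1) *
      nc (fun n => specK a b c r (gen n)) d i j := by
  have hP : Prp gen d := prp_of_rec (by norm_num) (MvPolynomial.X 3) gen d (fun m _ => gen_rec m)
  have h := nc_identity gen d hP (vth_gen_ne d) i j hj hi
  have h2 := congrArg (specK a b c r) h
  rw [map_mul, map_mul, map_vth, map_vth, map_nc, map_nc] at h2
  exact h2

end generic

section polynomials

variable {K : Type u} [Field K]

lemma tau_succ (θ : ℕ → K) (i : ℕ) : tau θ (i + 1) = tau θ i * (X - C (θ i)) := by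
  rw [tau, Finset.prod_range_succ]; rfl

lemma rho_succ (θ : ℕ → K) (d i : ℕ) :
    rho θ d (i + 1) = rho θ d i * (X - C (θ (d - i))) := by
  rw [rho, Finset.prod_range_succ]; rfl

lemma tau_degree (θ : ℕ → K) (i : ℕ) : (tau θ i).degree = i := by
  rw [tau, Polynomial.degree_prod]
  simp

lemma rho_degree (θ : ℕ → K) (d i : ℕ) : (rho θ d i).degree = i := by
  rw [rho, Polynomial.degree_prod]
  simp

lemma tau_monic (θ : ℕ → K) (i : ℕ) : (tau θ i).Monic := by
  rw [tau]
  exact monic_prod_of_monic _ _ fun h _ => monic_X_sub_C _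

/-- Newton expansion of `ρ_i`. -/
lemma rho_eq_sum (θ : ℕ → K) (d : ℕ) : ∀ i, rho θ d i =
    ∑ j ∈ Finset.range (i + 1), nc θ d i j • tau θ j := by
  intro i
  induction i with
  | zero => simp [rho, tau, nc]
  | succ i ih =>
    rw [rho_succ, ih, Finset.sum_mul]
    have h1 : ∀ j, nc θ d i j • tau θ j * (X - C (θ (d - i))) =
        nc θ d i j • tau θ (j + 1) + ((θ j - θ (d - i)) * nc θ d i j) • tau θ j := by
      intro j
      rw [tau_succ]
      simp only [smul_eq_C_mul, C_mul, C_sub]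
      ring
    simp only [h1]
    rw [Finset.sum_add_distrib]
    rw [Finset.sum_range_succ' (fun j => nc θ d (i + 1) j • tau θ j)]
    have h2 : ∀ j, nc θ d (i + 1) (j + 1) • tau θ (j + 1) =
        nc θ d i j • tau θ (j + 1) +
          ((θ (j + 1) - θ (d - i)) * nc θ d i (j + 1)) • tau θ (j + 1) := by
      intro j
      rw [nc, ← add_smul]
      congr 1
      ring
    simp only [h2]
    rw [Finset.sum_add_distrib, add_assoc]
    congr 1
    have h3 : nc θ d (i + 1) 0 = (θ 0 - θ (d - i)) * nc θ d i 0 := rfl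
    rw [h3, Finset.sum_range_succ' (fun j => ((θ j - θ (d - i)) * nc θ d i j) • tau θ j)]
    congr 1
    rw [Finset.sum_range_succ]
    rw [nc_of_lt θ d i (i + 1) (by omega)]
    simp

/-- The Newton sequence of polynomials. -/
noncomputable def newton (θ : ℕ → K) : Polynomial.Sequence K where
  elems' := tau θ
  degree_eq' := tau_degree θ

/-- The Newton basis. -/
noncomputable def nbasis (θ : ℕ → K) : Module.Basis ℕ K K[X] :=
  (newton θ).basis (fun i => by
    have : (tau θ i).leadingCoeff = 1 := tau_monic θ i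
    change IsUnit (tau θ i).leadingCoeff
    rw [this]
    exact isUnit_one)

lemma nbasis_apply (θ : ℕ → K) (i : ℕ) : nbasis θ i = tau θ i := by
  rw [nbasis, Polynomial.Sequence.basis_eq_self]
  rfl

/-- The lowering operator on all polynomials. -/
noncomputable def low (θ : ℕ → K) (d : ℕ) : K[X] →ₗ[K] K[X] :=
  (nbasis θ).constr K (fun i => if 1 ≤ i ∧ i ≤ d then vth θ d i • tau θ (i - 1) else 0)

lemma low_tau (θ : ℕ → K) (d i : ℕ) : low θ d (tau θ i) =
    if 1 ≤ i ∧ i ≤ d then vth θ d i • tau θ (i - 1) else 0 := by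
  rw [← nbasis_apply, low, Module.Basis.constr_basis]

lemma low_mem (θ : ℕ → K) (d : ℕ) (p : K[X]) : low θ d p ∈ degreeLE K (d : ℕ) := by
  rw [low, Module.Basis.constr_apply]
  refine Submodule.sum_mem _ fun i _ => Submodule.smul_mem _ _ ?_
  split_ifs with h
  · refine Submodule.smul_mem _ _ ?_
    rw [mem_degreeLE, tau_degree]
    exact_mod_cast (by omega : i - 1 ≤ d)
  · exact Submodule.zero_mem _

lemma low_rho (θ : ℕ → K) (d : ℕ)
    (H : ∀ i j, j ≤ i → i + 1 ≤ d →
      vth θ d (j + 1) * nc θ d (i + 1) (j + 1) = vth θ d (i + 1) * nc θ d i j)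
    (i : ℕ) (hi : i + 1 ≤ d) : low θ d (rho θ d (i + 1)) = vth θ d (i + 1) • rho θ d i := by
  rw [rho_eq_sum, rho_eq_sum, map_sum, Finset.sum_range_succ', Finset.smul_sum]
  simp only [map_smul, low_tau]
  simp only [Nat.le_zero, one_ne_zero, false_and, if_false, smul_zero, add_zero]
  refine Finset.sum_congr rfl fun j hj => ?_
  rw [Finset.mem_range] at hj
  rw [if_pos ⟨by omega, by omega⟩, Nat.add_sub_cancel, smul_smul, smul_smul,
    mul_comm (nc θ d (i + 1) (j + 1)), H i j (by omega) hi]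

end polynomials

/-- **Main theorem.** For every field `K`, every `d ≥ 1` and pairwise distinct
`θ_0, …, θ_d ∈ K` such that `(θ_{i-2} - θ_{i+1}) / (θ_{i-1} - θ_i)` is independent of `i` for
`2 ≤ i ≤ d - 1`, there is a nonzero lowering map, namely the one given by
`Ψ τ_i = ϑ_i τ_{i-1}` and `Ψ ρ_i = ϑ_i ρ_{i-1}` with `ϑ_i = ∑_{h < i} (θ_h - θ_{d-h})`. -/
theorem result (K : Type u) [Field K] (d : ℕ) (hd : 1 ≤ d) (θ : ℕ → K)
    (hdist : ∀ i j, i ≤ d → j ≤ d → θ i = θ j → i = j)
    (hrec : ∀ i j, 2 ≤ i → i ≤ d - 1 → 2 ≤ j → j ≤ d - 1 →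
      (θ (i - 2) - θ (i + 1)) * (θ (i - 1) - θ i)⁻¹ =
        (θ (j - 2) - θ (j + 1)) * (θ (j - 1) - θ j)⁻¹) :
    ∃ Ψ : degreeLE K (d : ℕ) →ₗ[K] degreeLE K (d : ℕ), Ψ ≠ 0 ∧ IsLoweringMap d θ Ψ ∧
      ∀ i, 1 ≤ i → i ≤ d → ∀ p : degreeLE K (d : ℕ),
        ((p : K[X]) = tau θ i → (Ψ p : K[X]) = vth θ d i • tau θ (i - 1)) ∧
        ((p : K[X]) = rho θ d i → (Ψ p : K[X]) = vth θ d i • rho θ d (i - 1)) := by
  obtain ⟨r, hr⟩ : ∃ r : K, ∀ m, m + 3 ≤ d →
      θ m - θ (m + 3) = r * (θ (m + 1) - θ (m + 2)) := by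
    by_cases h3 : 3 ≤ d
    · refine ⟨(θ 0 - θ 3) * (θ 1 - θ 2)⁻¹, fun m hm => ?_⟩
      have h := hrec (m + 2) 2 (by omega) (by omega) (by omega) (by omega)
      have hne : θ (m + 1) - θ (m + 2) ≠ 0 := by
        intro h0
        have := hdist (m + 1) (m + 2) (by omega) (by omega) (sub_eq_zero.1 h0)
        omega
      have e1 : m + 2 - 2 = m := by omega
      have e2 : m + 2 + 1 = m + 3 := by omega
      have e3 : m + 2 - 1 = m + 1 := by omega
      rw [e1, e2, e3] at h
      norm_num at h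
      have h' := congrArg (fun z => z * (θ (m + 1) - θ (m + 2))) h
      simp only [mul_assoc] at h'
      rw [inv_mul_cancel₀ hne, mul_one] at h'
      rw [h']
      ring
    · exact ⟨0, fun m hm => by omega⟩
  let θ' : ℕ → K := fun n => specK (θ 0) (θ 1) (θ 2) r (gen n)
  have hθ' : ∀ n, n ≤ d → θ' n = θ n := specK_gen θ d r hr
  have hvth : ∀ i, i ≤ d + 1 → vth θ' d i = vth θ d i := by
    intro i hi
    refine Finset.sum_congr rfl fun h hh => ?_
    rw [Finset.mem_range] at hh
    rw [hθ' _ (by omega), hθ' _ (by omega)]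
  have htau : ∀ i, i ≤ d + 1 → tau θ' i = tau θ i := by
    intro i hi
    refine Finset.prod_congr rfl fun h hh => ?_
    rw [Finset.mem_range] at hh
    rw [hθ' _ (by omega)]
  have hrho : ∀ i, rho θ' d i = rho θ d i := by
    intro i
    refine Finset.prod_congr rfl fun h hh => ?_
    rw [hθ' _ (by omega)]
  let Ψ : degreeLE K (d : ℕ) →ₗ[K] degreeLE K (d : ℕ) :=
    LinearMap.codRestrict _ ((low θ' d).comp (degreeLE K (d : ℕ)).subtype)
      (fun p => low_mem θ' d _)
  have hΨ : ∀ p : degreeLE K (d : ℕ), (Ψ p : K[X]) = low θ' d p := fun p => rfl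
  have hA : ∀ i, 1 ≤ i → i ≤ d → ∀ p : degreeLE K (d : ℕ), (p : K[X]) = tau θ i →
      (Ψ p : K[X]) = vth θ d i • tau θ (i - 1) := by
    intro i h1 h2 p hp
    rw [hΨ, hp, ← htau i (by omega), low_tau, if_pos ⟨h1, h2⟩, hvth i (by omega),
      htau (i - 1) (by omega)]
  have hB : ∀ i, 1 ≤ i → i ≤ d → ∀ p : degreeLE K (d : ℕ), (p : K[X]) = rho θ d i →
      (Ψ p : K[X]) = vth θ d i • rho θ d (i - 1) := by
    intro i h1 h2 p hp
    obtain ⟨i, rfl⟩ : ∃ k, i = k + 1 := ⟨i - 1, by omega⟩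
    rw [hΨ, hp, ← hrho, low_rho θ' d (fun i j => identity_K _ _ _ _ d i j) i h2,
      hvth _ (by omega), hrho, Nat.add_sub_cancel]
  have h0 : ∀ p : degreeLE K (d : ℕ), (p : K[X]) = 1 → Ψ p = 0 := by
    intro p hp
    apply Subtype.ext
    rw [hΨ, hp]
    have : (1 : K[X]) = tau θ' 0 := by simp [tau]
    rw [this, low_tau]
    simp
  refine ⟨Ψ, ?_, ⟨?_, ?_, ?_, ?_⟩, fun i h1 h2 p => ⟨hA i h1 h2 p, hB i h1 h2 p⟩⟩
  · intro hzero
    have hmem : tau θ 1 ∈ degreeLE K (d : ℕ) := by
      rw [mem_degreeLE, tau_degree]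
      exact_mod_cast hd
    have h1 := hA 1 le_rfl hd ⟨tau θ 1, hmem⟩ rfl
    rw [hzero] at h1
    have h2 : tau θ (1 - 1) = 1 := by simp [tau]
    have h3 : vth θ d 1 = θ 0 - θ d := by simp [vth]
    rw [h2, h3] at h1
    have h4 : (θ 0 - θ d) • (1 : K[X]) = 0 := h1.symm
    rw [smul_eq_zero] at h4
    rcases h4 with h4 | h4
    · have := hdist 0 d (by omega) le_rfl (sub_eq_zero.1 h4)
      omega
    · exact one_ne_zero h4
  · intro p hp
    exact h0 p (by rw [hp]; simp [tau])
  · intro p hp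
    exact h0 p (by rw [hp]; simp [rho])
  · intro i h1 h2 p hp
    rw [hA i h1 h2 p hp]
    exact Submodule.smul_mem _ _ (Submodule.mem_span_singleton_self _)
  · intro i h1 h2 p hp
    rw [hB i h1 h2 p hp]
    exact Submodule.smul_mem _ _ (Submodule.mem_span_singleton_self _)

end Pool.Agent.Results.MP_87e037_al.LoweringMap
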